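import Pool.Agent.H78.SurjPoly

namespace Pool.Agent.Results.MP_07d99b_al.Yes

open MvPolynomial

/-- A surjective polynomial map satisfying conditions (a) to (e). -/
theorem result : ∃ (n : ℕ) (p : Fin n → MvPolynomial (Fin n) ℝ), 1 ≤ n ∧
    (Function.Surjective fun (x : Fin n → ℝ) (i : Fin n) => eval x (p i)) ∧
    (∀ i, eval 0 (p i) = 0) ∧ (∀ i, (p i).totalDegree ≤ i.1 + 1) ∧
    {x : Fin n → ℝ | ∀ i, eval x (p i) = 0}.Infinite ∧
    (∀ T : Finset (Fin n), 1 ≤ T.card → T.card < n →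
      T.card + 1 ≤ (T.biUnion fun i => (p i).vars).card) ∧
    ∀ i d, coeff d (p i) ≠ 0 → coeff d (p i) = 1 ∨ coeff d (p i) = -1 :=
  Pool.Agent.H78.SurjPoly.main

end Pool.Agent.Results.MP_07d99b_al.Yes
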